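import Pool.Agent.Helper9.Ends.Defs
import Pool.Agent.Helper44.Ends.Cone

set_option autoImplicit false

open Set Filter Metric Topology MeasureTheory
open scoped ContDiff
open Pool.Agent.Helper61.KS

namespace Pool.Agent.EN

/-- the cone condition at a boundary point, as a hypothesis -/
theorem inner_diam_of_cone {Ω : Set ℂ} (hΩ : C2Domain Ω)
    (hcone : ∀ p ∈ frontier Ω, ∃ (ν : ℂ) (δ η c : ℝ), ‖ν‖ = 1 ∧ 0 < δ ∧ 0 < η ∧ 0 < c ∧
      (∀ z ∈ Ω, dist z p < δ → ∀ t : ℝ, 0 < t → t ≤ η → ball (z - t * ν) (c * t) ⊆ Ω)) :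
    ∃ C : ℝ, ∀ G : ℂ → ℂ, DifferentiableOn ℂ G Ω → (∀ z ∈ Ω, ‖deriv G z‖ ≤ 1) →
      ∀ z ∈ Ω, ∀ w ∈ Ω, ‖G z - G w‖ ≤ C := by
  -- estimate along a convex subset
  have hconv : ∀ G : ℂ → ℂ, DifferentiableOn ℂ G Ω → (∀ z ∈ Ω, ‖deriv G z‖ ≤ 1) →
      ∀ s : Set ℂ, Convex ℝ s → s ⊆ Ω → ∀ z ∈ s, ∀ w ∈ s, ‖G z - G w‖ ≤ ‖z - w‖ := by
    intro G hG hG1 s hs hsΩ z hz w hw
    have h1 := hs.norm_image_sub_le_of_norm_deriv_le (f := G) (C := 1) (𝕜 := ℂ)
      (fun x hx => hG.differentiableAt (hΩ.isOpen.mem_nhds (hsΩ hx))) (fun x hx => hG1 x (hsΩ hx))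
      hw hz
    rwa [one_mul] at h1
  -- local estimate
  have hloc : ∀ p ∈ closure Ω, ∃ (r C : ℝ), 0 < r ∧ ∀ G : ℂ → ℂ, DifferentiableOn ℂ G Ω →
      (∀ z ∈ Ω, ‖deriv G z‖ ≤ 1) → ∀ z ∈ Ω, dist z p < r → ∀ w ∈ Ω, dist w p < r →
        ‖G z - G w‖ ≤ C := by
    intro p hp
    by_cases hpΩ : p ∈ Ω
    · obtain ⟨r, hr, hrΩ⟩ := Metric.isOpen_iff.1 hΩ.isOpen p hpΩ
      refine ⟨r, 2 * r, hr, ?_⟩
      intro G hG hG1 z hz hzp w hw hwp
      refine (hconv G hG hG1 _ (convex_ball p r) hrΩ z hzp w hwp).trans ?_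
      rw [← dist_eq_norm]
      have := dist_triangle_right z w p
      linarith
    · have hpf : p ∈ frontier Ω := by
        rw [hΩ.isOpen.frontier_eq]
        exact ⟨hp, hpΩ⟩
      obtain ⟨ν, δ, η, c, hν, hδ, hη, hc, hcone⟩ := hcone p hpf
      refine ⟨min δ (c * η / 2), 2 * η + c * η, by positivity, ?_⟩
      intro G hG hG1 z hz hzp w hw hwp
      have hseg : ∀ x ∈ Ω, dist x p < δ → ‖G x - G (x - η * ν)‖ ≤ η := by
        intro x hx hxp
        have hsub : segment ℝ x (x - η * ν) ⊆ Ω := by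
          intro y hy
          rw [segment_eq_image'] at hy
          obtain ⟨t, ht, rfl⟩ := hy
          rcases eq_or_lt_of_le ht.1 with h0 | h0
          · rw [← h0]
            simpa using hx
          · have h1 := hcone x hx hxp (t * η) (by positivity)
              (by have := ht.2; nlinarith)
            apply h1
            have h2 : x + t • (x - η * ν - x) = x - ((t * η : ℝ) : ℂ) * ν := by
              rw [Complex.real_smul]
              push_cast
              ring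
            simp only
            rw [h2]
            exact mem_ball_self (by positivity)
        have h1 := hconv G hG hG1 _ (convex_segment x (x - η * ν)) hsub x (left_mem_segment ℝ _ _)
          (x - η * ν) (right_mem_segment ℝ _ _)
        refine h1.trans ?_
        rw [sub_sub_cancel, norm_mul, hν, mul_one, Complex.norm_real, Real.norm_eq_abs,
          abs_of_pos hη]
      have hz1 := hseg z hz (hzp.trans_le (min_le_left _ _))
      have hw1 := hseg w hw (hwp.trans_le (min_le_left _ _))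
      have hzb := hcone z hz (hzp.trans_le (min_le_left _ _)) η hη le_rfl
      have hdist : dist z w < c * η := by
        have h1 := dist_triangle_right z w p
        have h2 := hzp.trans_le (min_le_right _ _)
        have h3 := hwp.trans_le (min_le_right _ _)
        linarith
      have hmid : ‖G (z - η * ν) - G (w - η * ν)‖ ≤ c * η := by
        have h1 := hconv G hG hG1 _ (convex_ball _ _) hzb (z - η * ν)
          (mem_ball_self (by positivity)) (w - η * ν) (by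
            rw [mem_ball, dist_sub_right, dist_comm]
            exact hdist)
        refine h1.trans ?_
        rw [sub_sub_sub_cancel_right, ← dist_eq_norm]
        exact hdist.le
      have h3 : G z - G w = (G z - G (z - η * ν)) + (G (z - η * ν) - G (w - η * ν))
          - (G w - G (w - η * ν)) := by ring
      rw [h3]
      refine (norm_sub_le _ _).trans ?_
      have h4 := norm_add_le (G z - G (z - η * ν)) (G (z - η * ν) - G (w - η * ν))
      linarith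
  obtain ⟨z₀, hz₀⟩ := hΩ.connected.nonempty
  -- the set of points at finite distance
  let S : Set ℂ := {z | z ∈ Ω ∧ ∃ C : ℝ, ∀ G : ℂ → ℂ, DifferentiableOn ℂ G Ω →
      (∀ z ∈ Ω, ‖deriv G z‖ ≤ 1) → ‖G z - G z₀‖ ≤ C}
  let T : Set ℂ := {z | z ∈ Ω ∧ ¬ ∃ C : ℝ, ∀ G : ℂ → ℂ, DifferentiableOn ℂ G Ω →
      (∀ z ∈ Ω, ‖deriv G z‖ ≤ 1) → ‖G z - G z₀‖ ≤ C}
  have hSo : IsOpen S := by
    rw [Metric.isOpen_iff]
    rintro z ⟨hz, C, hC⟩
    obtain ⟨r, C', hr, h⟩ := hloc z (subset_closure hz)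
    obtain ⟨r', hr', hr'Ω⟩ := Metric.isOpen_iff.1 hΩ.isOpen z hz
    refine ⟨min r r', lt_min hr hr', fun w hw => ⟨hr'Ω (ball_subset_ball (min_le_right _ _) hw),
      C' + C, fun G hG hG1 => ?_⟩⟩
    have h1 := h G hG hG1 w (hr'Ω (ball_subset_ball (min_le_right _ _) hw))
      ((mem_ball.1 hw).trans_le (min_le_left _ _)) z hz (by simpa using hr)
    have h2 := hC G hG hG1
    have h3 := norm_add_le (G w - G z) (G z - G z₀)
    rw [sub_add_sub_cancel] at h3
    linarith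
  have hTo : IsOpen T := by
    rw [Metric.isOpen_iff]
    rintro z ⟨hz, hC⟩
    obtain ⟨r, C', hr, h⟩ := hloc z (subset_closure hz)
    obtain ⟨r', hr', hr'Ω⟩ := Metric.isOpen_iff.1 hΩ.isOpen z hz
    refine ⟨min r r', lt_min hr hr', fun w hw => ⟨hr'Ω (ball_subset_ball (min_le_right _ _) hw),
      fun ⟨C, hCw⟩ => hC ⟨C' + C, fun G hG hG1 => ?_⟩⟩⟩
    have h1 := h G hG hG1 z hz (by simpa using hr) w (hr'Ω (ball_subset_ball (min_le_right _ _) hw))
      ((mem_ball.1 hw).trans_le (min_le_left _ _))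
    have h2 := hCw G hG hG1
    have h3 := norm_add_le (G z - G w) (G w - G z₀)
    rw [sub_add_sub_cancel] at h3
    linarith
  have hST : Ω ⊆ S ∪ T := fun z hz => by
    by_cases h : ∃ C : ℝ, ∀ G : ℂ → ℂ, DifferentiableOn ℂ G Ω →
      (∀ z ∈ Ω, ‖deriv G z‖ ≤ 1) → ‖G z - G z₀‖ ≤ C
    · exact Or.inl ⟨hz, h⟩
    · exact Or.inr ⟨hz, h⟩
  have hdisj : Disjoint S T := by
    rw [Set.disjoint_left]
    exact fun z h1 h2 => h2.2 h1.2
  have hS : Ω ⊆ S := by
    refine hΩ.connected.isPreconnected.subset_left_of_subset_union hSo hTo hdisj hST ?_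
    exact ⟨z₀, hz₀, hz₀, 0, fun G _ _ => by simp⟩
  -- compactness
  have hcomp : IsCompact (closure Ω) := hΩ.bounded.isCompact_closure
  have hfin : ∃ C : ℝ, ∀ G : ℂ → ℂ, DifferentiableOn ℂ G Ω → (∀ z ∈ Ω, ‖deriv G z‖ ≤ 1) →
      ∀ z ∈ closure Ω, z ∈ Ω → ‖G z - G z₀‖ ≤ C := by
    refine hcomp.induction_on (p := fun A => ∃ C : ℝ, ∀ G : ℂ → ℂ, DifferentiableOn ℂ G Ω →
      (∀ z ∈ Ω, ‖deriv G z‖ ≤ 1) → ∀ z ∈ A, z ∈ Ω → ‖G z - G z₀‖ ≤ C) ?_ ?_ ?_ ?_
    · exact ⟨0, fun G _ _ z hz => absurd hz (notMem_empty z)⟩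
    · rintro A B hAB ⟨C, hC⟩
      exact ⟨C, fun G hG hG1 z hz => hC G hG hG1 z (hAB hz)⟩
    · rintro A B ⟨C, hC⟩ ⟨C', hC'⟩
      refine ⟨max C C', fun G hG hG1 z hz hzΩ => ?_⟩
      rcases hz with hz | hz
      · exact (hC G hG hG1 z hz hzΩ).trans (le_max_left _ _)
      · exact (hC' G hG hG1 z hz hzΩ).trans (le_max_right _ _)
    · intro p hp
      obtain ⟨r, C, hr, h⟩ := hloc p hp
      refine ⟨ball p r, mem_nhdsWithin_of_mem_nhds (ball_mem_nhds p hr), ?_⟩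
      obtain ⟨w, hwΩ, hwp⟩ := Metric.mem_closure_iff.1 hp r hr
      obtain ⟨-, C', hC'⟩ := hS hwΩ
      refine ⟨C + C', fun G hG hG1 z hz hzΩ => ?_⟩
      have h1 := h G hG hG1 z hzΩ hz w hwΩ (by rwa [dist_comm])
      have h2 := hC' G hG hG1
      have h3 := norm_add_le (G z - G w) (G w - G z₀)
      rw [sub_add_sub_cancel] at h3
      linarith
  obtain ⟨C, hC⟩ := hfin
  refine ⟨C + C, fun G hG hG1 z hz w hw => ?_⟩
  have h1 := hC G hG hG1 z (subset_closure hz) hz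
  have h2 := hC G hG hG1 w (subset_closure hw) hw
  have h3 := norm_sub_le (G z - G z₀) (G w - G z₀)
  rw [sub_sub_sub_cancel_right] at h3
  linarith

/-- EN-9c (uses EN-9b) -/
theorem inner_diam {Ω : Set ℂ} (hΩ : C2Domain Ω) :
    ∃ C : ℝ, ∀ G : ℂ → ℂ, DifferentiableOn ℂ G Ω → (∀ z ∈ Ω, ‖deriv G z‖ ≤ 1) →
      ∀ z ∈ Ω, ∀ w ∈ Ω, ‖G z - G w‖ ≤ C := by
  refine inner_diam_of_cone hΩ fun p hp => ?_
  obtain ⟨ν, δ, η, c, h1, h2, h3, h4, h5, -⟩ := cone hΩ hp
  exact ⟨ν, δ, η, c, h1, h2, h3, h4, h5⟩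

end Pool.Agent.EN
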